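import Mathlib

set_option autoImplicit false

/-!
# Homogeneity and free extensions in the universal homogeneous poset
-/

namespace Pool.Agent.RPoset

/-- Universality and homogeneity. -/
structure IsGen (Ω : Type) [PartialOrder Ω] : Prop where
  univ : ∀ (α : Type) [Finite α] [PartialOrder α], Nonempty (α ↪o Ω)
  homog : ∀ (A B : Set Ω), A.Finite → ∀ f : A ≃o B, ∃ g : Ω ≃o Ω, ∀ a : A, g a.1 = (f a).1

/-- The partial order defined by a preorder on a finite type. -/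
theorem exists_quot (α : Type) [Finite α] (r : α → α → Prop) (hr : ∀ a, r a a)
    (ht : ∀ a b c, r a b → r b c → r a c) :
    ∃ (T : Type) (_ : PartialOrder T) (_ : Finite T) (π : α → T), Function.Surjective π ∧
      ∀ a b, π a ≤ π b ↔ r a b := by
  let s : Setoid α := ⟨fun a b => r a b ∧ r b a, ⟨fun a => ⟨hr a, hr a⟩, fun h => ⟨h.2, h.1⟩,
    fun h h' => ⟨ht _ _ _ h.1 h'.1, ht _ _ _ h'.2 h.2⟩⟩⟩
  let R : Quotient s → Quotient s → Prop := Quotient.lift₂ r (by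
    intro a b a' b' h h'
    exact propext ⟨fun h3 => ht _ _ _ h.2 (ht _ _ _ h3 h'.1),
      fun h3 => ht _ _ _ h.1 (ht _ _ _ h3 h'.2)⟩)
  let P : PartialOrder (Quotient s) :=
    { le := R
      le_refl := fun a => Quotient.inductionOn a hr
      le_trans := fun a b c => Quotient.inductionOn₃ a b c fun a b c => ht a b c
      le_antisymm := fun a b => Quotient.inductionOn₂ a b fun a b h h' =>
        Quotient.sound ⟨h, h'⟩ }
  exact ⟨Quotient s, P, Quotient.finite s, Quotient.mk s, Quotient.mk_surjective,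
    fun a b => Iff.rfl⟩

section Aut

variable {Ω : Type} [PartialOrder Ω]

/-- Homogeneity for partial maps given by functions. -/
theorem IsGen.exists_aut (hΩ : IsGen Ω) {ι : Type} (A : Set ι) (hA : A.Finite) (φ ψ : ι → Ω)
    (h : ∀ a ∈ A, ∀ b ∈ A, φ a ≤ φ b ↔ ψ a ≤ ψ b) : ∃ g : Ω ≃o Ω, ∀ a ∈ A, g (φ a) = ψ a := by
  classical
  have hinj : ∀ a ∈ A, ∀ b ∈ A, φ a = φ b → ψ a = ψ b := by
    intro a ha b hb hab
    exact le_antisymm ((h a ha b hb).1 hab.le) ((h b hb a ha).1 hab.ge)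
  have hinj' : ∀ a ∈ A, ∀ b ∈ A, ψ a = ψ b → φ a = φ b := by
    intro a ha b hb hab
    exact le_antisymm ((h a ha b hb).2 hab.le) ((h b hb a ha).2 hab.ge)
  -- choose preimages
  have hch : ∀ x : φ '' A, ∃ a ∈ A, φ a = x.1 := fun x => x.2
  choose p hp1 hp2 using hch
  have hch' : ∀ x : ψ '' A, ∃ a ∈ A, ψ a = x.1 := fun x => x.2
  choose q hq1 hq2 using hch'
  let f : (φ '' A) ≃o (ψ '' A) :=
    { toFun := fun x => ⟨ψ (p x), ⟨p x, hp1 x, rfl⟩⟩
      invFun := fun y => ⟨φ (q y), ⟨q y, hq1 y, rfl⟩⟩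
      left_inv := by
        intro x
        apply Subtype.ext
        show φ (q _) = x.1
        rw [← hp2 x]
        exact hinj' _ (hq1 _) _ (hp1 _) (hq2 _)
      right_inv := by
        intro x
        apply Subtype.ext
        show ψ (p _) = x.1
        rw [← hq2 x]
        exact hinj _ (hp1 _) _ (hq1 _) (hp2 _)
      map_rel_iff' := by
        intro x y
        show ψ (p x) ≤ ψ (p y) ↔ x.1 ≤ y.1
        rw [← h _ (hp1 x) _ (hp1 y), hp2, hp2] }
  obtain ⟨g, hg⟩ := hΩ.homog (φ '' A) (ψ '' A) (hA.image φ) f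
  refine ⟨g, fun a ha => ?_⟩
  have h1 := hg ⟨φ a, ⟨a, ha, rfl⟩⟩
  rw [h1]
  show ψ (p _) = ψ a
  exact hinj _ (hp1 _) _ ha (hp2 _)

/-- The relation of the free amalgam. -/
def amRel {X : Set Ω} {N : Type} [PartialOrder N] (N0 : Set N) (e : N → Ω) :
    X ⊕ N → X ⊕ N → Prop
  | Sum.inl x, Sum.inl y => x.1 ≤ y.1
  | Sum.inl x, Sum.inr n => ∃ b ∈ N0, x.1 ≤ e b ∧ b ≤ n
  | Sum.inr n, Sum.inl x => ∃ b ∈ N0, n ≤ b ∧ e b ≤ x.1
  | Sum.inr n, Sum.inr n' => n ≤ n'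

/-- Free extension of a partial embedding. -/
theorem IsGen.free_ext (hΩ : IsGen Ω) (X : Set Ω) (hX : X.Finite) (N : Type) [Finite N]
    [PartialOrder N] (N0 : Set N) (e : N → Ω) (he : ∀ a ∈ N0, ∀ b ∈ N0, e a ≤ e b ↔ a ≤ b)
    (heX : ∀ a ∈ N0, e a ∈ X) :
    ∃ e' : N → Ω, (∀ a ∈ N0, e' a = e a) ∧ (∀ a b, e' a ≤ e' b ↔ a ≤ b) ∧
      ∀ a, ∀ x ∈ X, (e' a ≤ x → ∃ b ∈ N0, a ≤ b ∧ e b ≤ x) ∧
        (x ≤ e' a → ∃ b ∈ N0, x ≤ e b ∧ b ≤ a) := by
  classical
  have hfX : Finite X := hX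
  obtain ⟨T, iT, fT, π, -, hπ⟩ := exists_quot (X ⊕ N) (amRel N0 e) (by
      rintro (x | n)
      · exact le_refl x.1
      · exact le_refl n) (by
      rintro (x | n) (y | m) (z | k) h1 h2
      · exact le_trans (α := Ω) h1 h2
      · obtain ⟨b, hb, h3, h4⟩ := h2
        exact ⟨b, hb, le_trans (α := Ω) h1 h3, h4⟩
      · obtain ⟨b, hb, h3, h4⟩ := h1
        obtain ⟨b', hb', h3', h4'⟩ := h2
        exact le_trans h3 (le_trans ((he b hb b' hb').2 (h4.trans h3')) h4')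
      · obtain ⟨b, hb, h3, h4⟩ := h1
        exact ⟨b, hb, h3, le_trans (α := N) h4 h2⟩
      · obtain ⟨b, hb, h3, h4⟩ := h1
        exact ⟨b, hb, h3, le_trans (α := Ω) h4 h2⟩
      · obtain ⟨b, hb, h3, h4⟩ := h1
        obtain ⟨b', hb', h3', h4'⟩ := h2
        exact le_trans (α := N) h3 (le_trans ((he b hb b' hb').1 (h4.trans h3')) h4')
      · obtain ⟨b, hb, h3, h4⟩ := h2
        exact ⟨b, hb, le_trans (α := N) h1 h3, h4⟩
      · exact le_trans (α := N) h1 h2)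
  obtain ⟨j⟩ := hΩ.univ T
  have hj : ∀ a b : X ⊕ N, j (π a) ≤ j (π b) ↔ amRel N0 e a b := by
    intro a b
    rw [j.le_iff_le, hπ]
  obtain ⟨g, hg⟩ := hΩ.exists_aut (ι := X) Set.univ Set.finite_univ
    (fun x => j (π (Sum.inl x))) (fun x => x.1) (by
      intro a _ b _
      show j (π (Sum.inl a)) ≤ j (π (Sum.inl b)) ↔ a.1 ≤ b.1
      rw [hj]; exact Iff.rfl)
  have hg' : ∀ x : X, g (j (π (Sum.inl x))) = x.1 :=
    fun x => hg x (Set.mem_univ x)
  refine ⟨fun n => g (j (π (Sum.inr n))), ?_, ?_, ?_⟩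
  · intro a ha
    have h1 : π (Sum.inr a) = π (Sum.inl ⟨e a, heX a ha⟩) := by
      apply le_antisymm
      · rw [hπ]
        exact ⟨a, ha, le_refl a, le_refl _⟩
      · rw [hπ]
        exact ⟨a, ha, le_refl _, le_refl a⟩
    show g (j (π (Sum.inr a))) = e a
    rw [h1, hg']
  · intro a b
    show g (j _) ≤ g (j _) ↔ a ≤ b
    rw [g.le_iff_le, hj]
    exact Iff.rfl
  · intro a x hx
    have h1 := hg' ⟨x, hx⟩
    constructor
    · intro h2
      have h3 : g (j (π (Sum.inr a))) ≤ g (j (π (Sum.inl ⟨x, hx⟩))) := by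
        rw [h1]; exact h2
      rw [g.le_iff_le, hj] at h3
      exact h3
    · intro h2
      have h3 : g (j (π (Sum.inl ⟨x, hx⟩))) ≤ g (j (π (Sum.inr a))) := by
        rw [h1]; exact h2
      rw [g.le_iff_le, hj] at h3
      exact h3

end Aut

end Pool.Agent.RPoset
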