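import Mathlib

set_option autoImplicit false

/-!
# An explicit model of the universal homogeneous countable poset

The points are finite well-founded forms `(L | U; l)`: finite families `L`, `U` of forms and a list
`l` of atoms (natural numbers). The symmetric group on the atoms acts on the forms.
-/

namespace Pool.Agent.RPoset

/-- Finite forms over the atoms `ℕ`. -/
inductive Form : Type
  | mk (n m : ℕ) (L : Fin n → Form) (U : Fin m → Form) (l : List ℕ) : Form

namespace Form

/-- The hereditary upper options of a form (including the form itself). -/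
def up : Form → Set Form
  | mk n m L U l => {mk n m L U l} ∪ ⋃ j, up (U j)

/-- The hereditary lower options of a form (including the form itself). -/
def dn : Form → Set Form
  | mk n m L U l => {mk n m L U l} ∪ ⋃ i, dn (L i)

/-- The atoms of a form. -/
def supp : Form → Finset ℕ
  | mk _ _ L U l => l.toFinset ∪ ((Finset.univ.biUnion fun i => supp (L i)) ∪
      (Finset.univ.biUnion fun j => supp (U j)))

/-- The size of a form. -/
def sz : Form → ℕ
  | mk _ _ L U l => 1 + l.length + (∑ i, sz (L i) + ∑ j, sz (U j))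

/-- The action of a permutation of the atoms. -/
def act (σ : Equiv.Perm ℕ) : Form → Form
  | mk n m L U l => mk n m (fun i => act σ (L i)) (fun j => act σ (U j)) (l.map σ)

/-- The order relation. -/
def le (x y : Form) : Prop := ∃ z, z ∈ up x ∧ z ∈ dn y

/-- The valid forms. -/
def Valid : Form → Prop
  | mk _ _ L U l => (∀ i, Valid (L i)) ∧ (∀ j, Valid (U j)) ∧
      (∀ i j, le (L i) (U j) ∧ L i ≠ U j) ∧ l.Nodup ∧ (∑ i, sz (L i) + ∑ j, sz (U j) ≤ l.length)

lemma mem_up_mk {n m : ℕ} {L : Fin n → Form} {U : Fin m → Form} {l : List ℕ} {z : Form} :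
    z ∈ up (mk n m L U l) ↔ z = mk n m L U l ∨ ∃ j, z ∈ up (U j) := by
  rw [up]; simp

lemma mem_dn_mk {n m : ℕ} {L : Fin n → Form} {U : Fin m → Form} {l : List ℕ} {z : Form} :
    z ∈ dn (mk n m L U l) ↔ z = mk n m L U l ∨ ∃ i, z ∈ dn (L i) := by
  rw [dn]; simp

lemma self_mem_up (x : Form) : x ∈ up x := by
  cases x; rw [mem_up_mk]; left; rfl

lemma self_mem_dn (x : Form) : x ∈ dn x := by
  cases x; rw [mem_dn_mk]; left; rfl

lemma up_trans {x y z : Form} (h : z ∈ up y) (h' : y ∈ up x) : z ∈ up x := by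
  induction x with
  | mk n m L U l ihL ihU =>
    rw [mem_up_mk] at h'
    rcases h' with rfl | ⟨j, hj⟩
    · exact h
    · rw [mem_up_mk]; right; exact ⟨j, ihU j hj⟩

lemma dn_trans {x y z : Form} (h : z ∈ dn y) (h' : y ∈ dn x) : z ∈ dn x := by
  induction x with
  | mk n m L U l ihL ihU =>
    rw [mem_dn_mk] at h'
    rcases h' with rfl | ⟨j, hj⟩
    · exact h
    · rw [mem_dn_mk]; right; exact ⟨j, ihL j hj⟩

lemma sz_mk_lt_left {n m : ℕ} (L : Fin n → Form) (U : Fin m → Form) (l : List ℕ) (i : Fin n) :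
    sz (L i) < sz (mk n m L U l) := by
  have h : sz (L i) ≤ ∑ i, sz (L i) :=
    Finset.single_le_sum (f := fun i => sz (L i)) (fun _ _ => Nat.zero_le _) (Finset.mem_univ i)
  rw [sz]; omega

lemma sz_mk_lt_right {n m : ℕ} (L : Fin n → Form) (U : Fin m → Form) (l : List ℕ) (j : Fin m) :
    sz (U j) < sz (mk n m L U l) := by
  have h : sz (U j) ≤ ∑ j, sz (U j) :=
    Finset.single_le_sum (f := fun j => sz (U j)) (fun _ _ => Nat.zero_le _) (Finset.mem_univ j)
  rw [sz]; omega

lemma sz_up {x z : Form} (h : z ∈ up x) : z = x ∨ sz z < sz x := by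
  induction x with
  | mk n m L U l ihL ihU =>
    rw [mem_up_mk] at h
    rcases h with rfl | ⟨j, hj⟩
    · left; rfl
    · right
      rcases ihU j hj with rfl | h
      · exact sz_mk_lt_right L U l j
      · exact h.trans (sz_mk_lt_right L U l j)

lemma sz_dn {x z : Form} (h : z ∈ dn x) : z = x ∨ sz z < sz x := by
  induction x with
  | mk n m L U l ihL ihU =>
    rw [mem_dn_mk] at h
    rcases h with rfl | ⟨j, hj⟩
    · left; rfl
    · right
      rcases ihL j hj with rfl | h
      · exact sz_mk_lt_left L U l j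
      · exact h.trans (sz_mk_lt_left L U l j)

lemma mem_supp_mk {n m : ℕ} {L : Fin n → Form} {U : Fin m → Form} {l : List ℕ} {c : ℕ} :
    c ∈ supp (mk n m L U l) ↔ c ∈ l ∨ (∃ i, c ∈ supp (L i)) ∨ ∃ j, c ∈ supp (U j) := by
  rw [supp]; simp

lemma supp_up {x z : Form} (h : z ∈ up x) : supp z ⊆ supp x := by
  induction x with
  | mk n m L U l ihL ihU =>
    rw [mem_up_mk] at h
    rcases h with rfl | ⟨j, hj⟩
    · exact subset_rfl
    · intro c hc
      rw [mem_supp_mk]
      exact Or.inr (Or.inr ⟨j, ihU j hj hc⟩)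

lemma supp_dn {x z : Form} (h : z ∈ dn x) : supp z ⊆ supp x := by
  induction x with
  | mk n m L U l ihL ihU =>
    rw [mem_dn_mk] at h
    rcases h with rfl | ⟨j, hj⟩
    · exact subset_rfl
    · intro c hc
      rw [mem_supp_mk]
      exact Or.inr (Or.inl ⟨j, ihL j hj hc⟩)

lemma valid_mk {n m : ℕ} {L : Fin n → Form} {U : Fin m → Form} {l : List ℕ} :
    Valid (mk n m L U l) ↔ (∀ i, Valid (L i)) ∧ (∀ j, Valid (U j)) ∧
      (∀ i j, le (L i) (U j) ∧ L i ≠ U j) ∧ l.Nodup ∧
      (∑ i, sz (L i) + ∑ j, sz (U j) ≤ l.length) := by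
  rw [Valid]

lemma valid_up {x z : Form} (hx : Valid x) (h : z ∈ up x) : Valid z := by
  induction x with
  | mk n m L U l ihL ihU =>
    rw [mem_up_mk] at h
    rcases h with rfl | ⟨j, hj⟩
    · exact hx
    · exact ihU j ((valid_mk.1 hx).2.1 j) hj

lemma valid_dn {x z : Form} (hx : Valid x) (h : z ∈ dn x) : Valid z := by
  induction x with
  | mk n m L U l ihL ihU =>
    rw [mem_dn_mk] at h
    rcases h with rfl | ⟨j, hj⟩
    · exact hx
    · exact ihL j ((valid_mk.1 hx).1 j) hj

lemma le_refl (x : Form) : le x x := ⟨x, self_mem_up x, self_mem_dn x⟩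

lemma le_trans {y : Form} (hy : Valid y) : ∀ {x w : Form}, le x y → le y w → le x w := by
  induction y with
  | mk n m L U l ihL ihU =>
    rintro x w ⟨z, hz1, hz2⟩ ⟨z', hz1', hz2'⟩
    have hv := valid_mk.1 hy
    rcases mem_dn_mk.1 hz2 with rfl | ⟨i, hi⟩
    · exact ⟨z', up_trans hz1' hz1, hz2'⟩
    rcases mem_up_mk.1 hz1' with rfl | ⟨j, hj⟩
    · exact ⟨z, hz1, dn_trans hz2 hz2'⟩
    have h1 : le x (L i) := ⟨z, hz1, hi⟩
    have h2 : le (U j) w := ⟨z', hj, hz2'⟩
    exact ihU j (hv.2.1 j) (ihL i (hv.1 i) h1 (hv.2.2.1 i j).1) h2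

lemma le_antisymm_aux (N : ℕ) : ∀ {x y : Form}, Valid x → Valid y → sz x + sz y ≤ N →
    le x y → le y x → x = y := by
  induction N with
  | zero =>
    intro x y _ _ h
    cases x; rw [sz] at h; omega
  | succ N ih =>
    have key : ∀ {x y : Form}, Valid x → Valid y → sz x + sz y ≤ N + 1 → sz y ≤ sz x →
        le x y → le y x → x = y := by
      intro x y hx hy hN hs hxy hyx
      obtain ⟨z, hz1, hz2⟩ := hxy
      obtain ⟨z', hz1', hz2'⟩ := hyx
      cases x with
      | mk n m L U l =>
        have hv := valid_mk.1 hx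
        rcases mem_up_mk.1 hz1 with rfl | ⟨j, hj⟩
        · rcases sz_dn hz2 with h | h
          · exact h
          · omega
        rcases mem_dn_mk.1 hz2' with rfl | ⟨i, hi⟩
        · rcases sz_up hz1' with h | h
          · exact h
          · omega
        exfalso
        have h1 : le (U j) y := ⟨z, hj, hz2⟩
        have h2 : le y (L i) := ⟨z', hz1', hi⟩
        have h3 : le (U j) (L i) := le_trans hy h1 h2
        have h4 := hv.2.2.1 i j
        have h5 := sz_mk_lt_left L U l i
        have h6 := sz_mk_lt_right L U l j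
        have h7 : sz (L i) + sz (U j) ≤ N := by
          have h8 : sz (L i) ≤ ∑ i, sz (L i) :=
            Finset.single_le_sum (f := fun i => sz (L i)) (fun _ _ => Nat.zero_le _)
              (Finset.mem_univ i)
          have h9 : sz (U j) ≤ ∑ j, sz (U j) :=
            Finset.single_le_sum (f := fun j => sz (U j)) (fun _ _ => Nat.zero_le _)
              (Finset.mem_univ j)
          have h10 : sz (mk n m L U l) = 1 + l.length + (∑ i, sz (L i) + ∑ j, sz (U j)) := by
            rw [sz]
          omega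
        exact h4.2 (ih (hv.1 i) (hv.2.1 j) h7 h4.1 h3)
    intro x y hx hy hN hxy hyx
    rcases Nat.le_total (sz y) (sz x) with h | h
    · exact key hx hy hN h hxy hyx
    · exact (key hy hx (by omega) h hyx hxy).symm

lemma le_antisymm {x y : Form} (hx : Valid x) (hy : Valid y) (h : le x y) (h' : le y x) :
    x = y := le_antisymm_aux _ hx hy Nat.le.refl h h'

/-! ### Countability -/

/-- A code of a form. -/
def code : Form → ℕ
  | mk _ _ L U l => Encodable.encode
      ((List.ofFn fun i => code (L i)), (List.ofFn fun j => code (U j)), l)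

lemma code_injective : Function.Injective code := by
  intro x
  induction x with
  | mk n m L U l ihL ihU =>
    intro y h
    cases y with
    | mk n' m' L' U' l' =>
      rw [code, code] at h
      have h1 := Encodable.encode_injective h
      simp only [Prod.mk.injEq] at h1
      obtain ⟨h1, h2, rfl⟩ := h1
      have hn : n = n' := by simpa using congrArg List.length h1
      have hm : m = m' := by simpa using congrArg List.length h2
      subst hn hm
      have h3 := List.ofFn_injective h1
      have h4 := List.ofFn_injective h2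
      have h5 : L = L' := by
        funext i; exact ihL i (congrFun h3 i)
      have h6 : U = U' := by
        funext i; exact ihU i (congrFun h4 i)
      rw [h5, h6]

instance : Countable Form := code_injective.countable

/-! ### The action of the permutations of the atoms -/

lemma act_mk (σ : Equiv.Perm ℕ) {n m : ℕ} (L : Fin n → Form) (U : Fin m → Form) (l : List ℕ) :
    act σ (mk n m L U l) = mk n m (fun i => act σ (L i)) (fun j => act σ (U j)) (l.map σ) := by
  rw [act]

lemma act_one (x : Form) : act 1 x = x := by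
  induction x with
  | mk n m L U l ihL ihU =>
    rw [act_mk]
    congr 1
    · funext i; exact ihL i
    · funext i; exact ihU i
    · simp

lemma act_mul (σ τ : Equiv.Perm ℕ) (x : Form) : act (σ * τ) x = act σ (act τ x) := by
  induction x with
  | mk n m L U l ihL ihU =>
    rw [act_mk, act_mk, act_mk]
    congr 1
    · funext i; exact ihL i
    · funext i; exact ihU i
    · simp

lemma act_inv_act (σ : Equiv.Perm ℕ) (x : Form) : act σ⁻¹ (act σ x) = x := by
  rw [← act_mul, inv_mul_cancel, act_one]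

lemma act_act_inv (σ : Equiv.Perm ℕ) (x : Form) : act σ (act σ⁻¹ x) = x := by
  rw [← act_mul, mul_inv_cancel, act_one]

lemma act_injective (σ : Equiv.Perm ℕ) : Function.Injective (act σ) :=
  Function.LeftInverse.injective (act_inv_act σ)

lemma act_congr {σ τ : Equiv.Perm ℕ} {x : Form} (h : ∀ c ∈ supp x, σ c = τ c) :
    act σ x = act τ x := by
  induction x with
  | mk n m L U l ihL ihU =>
    rw [act_mk, act_mk]
    congr 1
    · funext i; exact ihL i fun c hc => h c (mem_supp_mk.2 (Or.inr (Or.inl ⟨i, hc⟩)))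
    · funext i; exact ihU i fun c hc => h c (mem_supp_mk.2 (Or.inr (Or.inr ⟨i, hc⟩)))
    · exact List.map_congr_left fun c hc => h c (mem_supp_mk.2 (Or.inl hc))

lemma mem_supp_act {σ : Equiv.Perm ℕ} {x : Form} {c : ℕ} :
    c ∈ supp (act σ x) ↔ ∃ d ∈ supp x, σ d = c := by
  induction x with
  | mk n m L U l ihL ihU =>
    rw [act_mk, mem_supp_mk]
    constructor
    · rintro (h | ⟨i, h⟩ | ⟨i, h⟩)
      · rw [List.mem_map] at h
        obtain ⟨d, hd, rfl⟩ := h
        exact ⟨d, mem_supp_mk.2 (Or.inl hd), rfl⟩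
      · obtain ⟨d, hd, rfl⟩ := (ihL i).1 h
        exact ⟨d, mem_supp_mk.2 (Or.inr (Or.inl ⟨i, hd⟩)), rfl⟩
      · obtain ⟨d, hd, rfl⟩ := (ihU i).1 h
        exact ⟨d, mem_supp_mk.2 (Or.inr (Or.inr ⟨i, hd⟩)), rfl⟩
    · rintro ⟨d, hd, rfl⟩
      rcases mem_supp_mk.1 hd with h | ⟨i, h⟩ | ⟨i, h⟩
      · exact Or.inl (List.mem_map.2 ⟨d, h, rfl⟩)
      · exact Or.inr (Or.inl ⟨i, (ihL i).2 ⟨d, h, rfl⟩⟩)
      · exact Or.inr (Or.inr ⟨i, (ihU i).2 ⟨d, h, rfl⟩⟩)

lemma sz_act (σ : Equiv.Perm ℕ) (x : Form) : sz (act σ x) = sz x := by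
  induction x with
  | mk n m L U l ihL ihU =>
    rw [act_mk, sz, sz]
    simp only [ihL, ihU, List.length_map]

lemma act_mem_up {σ : Equiv.Perm ℕ} {x z : Form} (h : z ∈ up x) : act σ z ∈ up (act σ x) := by
  induction x with
  | mk n m L U l ihL ihU =>
    rw [mem_up_mk] at h
    rcases h with rfl | ⟨j, hj⟩
    · exact self_mem_up _
    · rw [act_mk, mem_up_mk]; right; exact ⟨j, ihU j hj⟩

lemma act_mem_dn {σ : Equiv.Perm ℕ} {x z : Form} (h : z ∈ dn x) : act σ z ∈ dn (act σ x) := by
  induction x with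
  | mk n m L U l ihL ihU =>
    rw [mem_dn_mk] at h
    rcases h with rfl | ⟨j, hj⟩
    · exact self_mem_dn _
    · rw [act_mk, mem_dn_mk]; right; exact ⟨j, ihL j hj⟩

lemma act_le {σ : Equiv.Perm ℕ} {x y : Form} (h : le x y) : le (act σ x) (act σ y) := by
  obtain ⟨z, h1, h2⟩ := h
  exact ⟨act σ z, act_mem_up h1, act_mem_dn h2⟩

lemma act_le_iff {σ : Equiv.Perm ℕ} {x y : Form} : le (act σ x) (act σ y) ↔ le x y := by
  constructor
  · intro h
    have := act_le (σ := σ⁻¹) h
    rwa [act_inv_act, act_inv_act] at this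
  · exact act_le

lemma valid_act {σ : Equiv.Perm ℕ} {x : Form} (h : Valid x) : Valid (act σ x) := by
  induction x with
  | mk n m L U l ihL ihU =>
    have hv := valid_mk.1 h
    rw [act_mk, valid_mk]
    refine ⟨fun i => ihL i (hv.1 i), fun j => ihU j (hv.2.1 j), fun i j => ⟨?_, ?_⟩, ?_, ?_⟩
    · exact act_le (hv.2.2.1 i j).1
    · exact fun h => (hv.2.2.1 i j).2 (act_injective σ h)
    · exact hv.2.2.2.1.map σ.injective
    · simp only [sz_act, List.length_map]
      exact hv.2.2.2.2

/-! ### Finiteness of the set of valid forms over finitely many atoms -/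

lemma finite_of_sz (S : Finset ℕ) (N : ℕ) : {x : Form | sz x ≤ N ∧ supp x ⊆ S}.Finite := by
  induction N with
  | zero =>
    convert Set.finite_empty using 1
    ext x
    simp only [Set.mem_ofPred_eq, Set.mem_empty_iff_false, iff_false, not_and]
    intro h
    cases x; rw [sz] at h; omega
  | succ N ih =>
    have hl : {l : List ℕ | l.length ≤ N + 1 ∧ ∀ c ∈ l, c ∈ S}.Finite := by
      have h1 : ({l : List S | l.length ≤ N + 1} : Set (List S)).Finite :=
        List.finite_length_le S (N + 1)
      refine (h1.image (List.map Subtype.val)).subset ?_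
      rintro l ⟨h2, h3⟩
      refine ⟨l.attach.map fun c => ⟨c.1, h3 c.1 c.2⟩, ?_, ?_⟩
      · simpa using h2
      · simp [List.map_map, Function.comp_def]
    have hf : ∀ n : ℕ, {L : Fin n → Form | ∀ i, L i ∈ {x : Form | sz x ≤ N ∧ supp x ⊆ S}}.Finite := by
      intro n
      have := Set.Finite.pi' (ι := Fin n) (κ := fun _ => Form)
        (t := fun _ => {x : Form | sz x ≤ N ∧ supp x ⊆ S}) (fun _ => ih)
      exact this
    have hu : (⋃ n ∈ Set.Iic (N + 1), ⋃ m ∈ Set.Iic (N + 1),
        (fun p : (Fin n → Form) × (Fin m → Form) × List ℕ => mk n m p.1 p.2.1 p.2.2) ''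
        ({L : Fin n → Form | ∀ i, L i ∈ {x : Form | sz x ≤ N ∧ supp x ⊆ S}} ×ˢ
          ({U : Fin m → Form | ∀ i, U i ∈ {x : Form | sz x ≤ N ∧ supp x ⊆ S}} ×ˢ
          {l : List ℕ | l.length ≤ N + 1 ∧ ∀ c ∈ l, c ∈ S}))).Finite := by
      refine (Set.finite_Iic _).biUnion fun n _ => (Set.finite_Iic _).biUnion fun m _ => ?_
      exact ((hf n).prod ((hf m).prod hl)).image _
    refine hu.subset ?_
    rintro x ⟨h1, h2⟩
    cases x with
    | mk n m L U l =>
      have hs : sz (mk n m L U l) = 1 + l.length + (∑ i, sz (L i) + ∑ j, sz (U j)) := by rw [sz]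
      have hpos : ∀ y : Form, 1 ≤ sz y := by
        intro y; cases y; rw [sz]; omega
      have hn : n ≤ ∑ i, sz (L i) := by
        calc n = ∑ _i : Fin n, 1 := by simp
          _ ≤ _ := Finset.sum_le_sum fun i _ => hpos _
      have hm : m ≤ ∑ j, sz (U j) := by
        calc m = ∑ _i : Fin m, 1 := by simp
          _ ≤ _ := Finset.sum_le_sum fun i _ => hpos _
      simp only [Set.mem_iUnion]
      refine ⟨n, ?_, m, ?_, ⟨(L, U, l), ⟨?_, ?_, ?_, ?_⟩, rfl⟩⟩
      · show n ≤ N + 1
        omega
      · show m ≤ N + 1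
        omega
      · intro i
        refine ⟨?_, fun c hc => h2 (mem_supp_mk.2 (Or.inr (Or.inl ⟨i, hc⟩)))⟩
        have := sz_mk_lt_left L U l i
        show sz (L i) ≤ N
        omega
      · intro i
        refine ⟨?_, fun c hc => h2 (mem_supp_mk.2 (Or.inr (Or.inr ⟨i, hc⟩)))⟩
        have := sz_mk_lt_right L U l i
        show sz (U i) ≤ N
        omega
      · show l.length ≤ N + 1
        omega
      · intro c hc
        exact h2 (mem_supp_mk.2 (Or.inl hc))

lemma finite_valid (S : Finset ℕ) : {x : Form | Valid x ∧ supp x ⊆ S}.Finite := by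
  refine (finite_of_sz S (1 + S.card + S.card)).subset ?_
  rintro x ⟨h1, h2⟩
  refine ⟨?_, h2⟩
  cases x with
  | mk n m L U l =>
    have hv := valid_mk.1 h1
    have h3 : l.length ≤ S.card := by
      rw [← List.toFinset_card_of_nodup hv.2.2.2.1]
      refine Finset.card_le_card fun c hc => h2 (mem_supp_mk.2 (Or.inl (by simpa using hc)))
    rw [sz]
    have := hv.2.2.2.2
    omega

end Form

end Pool.Agent.RPoset
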