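import Mathlib
import Pool.Agent.RPoset.Form

set_option autoImplicit false

/-!
# The model poset `M` with its action of the symmetric group of the atoms
-/

namespace Pool.Agent.RPoset

open Form

/-- The model of the universal homogeneous countable poset: the valid forms. -/
def M : Type := {x : Form // Valid x}

namespace M

instance : PartialOrder M where
  le x y := Form.le x.1 y.1
  le_refl x := Form.le_refl x.1
  le_trans _ y _ h h' := Form.le_trans y.2 h h'
  le_antisymm x y h h' := Subtype.ext (Form.le_antisymm x.2 y.2 h h')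

lemma le_def {x y : M} : x ≤ y ↔ Form.le x.1 y.1 := Iff.rfl

instance : Countable M := by unfold M; infer_instance

/-- The atoms of a point of `M`. -/
def supp (x : M) : Finset ℕ := Form.supp x.1

instance : MulAction (Equiv.Perm ℕ) M where
  smul σ x := ⟨Form.act σ x.1, valid_act x.2⟩
  one_smul x := Subtype.ext (act_one x.1)
  mul_smul σ τ x := Subtype.ext (act_mul σ τ x.1)

lemma smul_val (σ : Equiv.Perm ℕ) (x : M) : (σ • x).1 = Form.act σ x.1 := rfl

lemma smul_le_smul {σ : Equiv.Perm ℕ} {x y : M} : σ • x ≤ σ • y ↔ x ≤ y := act_le_iff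

lemma smul_congr {σ τ : Equiv.Perm ℕ} {x : M} (h : ∀ c ∈ supp x, σ c = τ c) : σ • x = τ • x :=
  Subtype.ext (act_congr h)

lemma mem_supp_smul {σ : Equiv.Perm ℕ} {x : M} {c : ℕ} :
    c ∈ supp (σ • x) ↔ ∃ d ∈ supp x, σ d = c := mem_supp_act

lemma supp_smul_subset {σ : Equiv.Perm ℕ} {x : M} {A B : Finset ℕ} (h : supp x ⊆ A)
    (hB : ∀ c ∈ A, σ c ∈ B) : supp (σ • x) ⊆ B := by
  intro c hc
  obtain ⟨d, hd, rfl⟩ := mem_supp_smul.1 hc
  exact hB d (h hd)

lemma interpolate {x y : M} (h : x ≤ y) :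
    ∃ z, x ≤ z ∧ z ≤ y ∧ supp z ⊆ supp x ∧ supp z ⊆ supp y := by
  obtain ⟨z, h1, h2⟩ := h
  exact ⟨⟨z, valid_up x.2 h1⟩, ⟨z, h1, self_mem_dn z⟩, ⟨z, self_mem_up z, h2⟩, supp_up h1,
    supp_dn h2⟩

lemma finite_supp (S : Finset ℕ) : {x : M | supp x ⊆ S}.Finite := by
  have h := finite_valid S
  have h2 : ((Subtype.val : M → Form) '' {x : M | supp x ⊆ S}).Finite := by
    refine h.subset ?_
    rintro _ ⟨x, hx, rfl⟩
    exact ⟨x.2, hx⟩
  exact h2.of_finite_image Subtype.val_injective.injOn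

/-- Realising a one-point type with fresh atoms. -/
theorem exists_node (D U : Finset M) (h : ∀ d ∈ D, ∀ u ∈ U, d < u) (av : Finset ℕ) :
    ∃ x : M, (∀ c ∈ supp x, (∃ d ∈ D, c ∈ supp d) ∨ (∃ u ∈ U, c ∈ supp u) ∨ c ∉ av) ∧
      ∀ b : M, supp b ⊆ av → ((b ≤ x ↔ ∃ d ∈ D, b ≤ d) ∧ (x ≤ b ↔ ∃ u ∈ U, u ≤ b)) := by
  classical
  set L : Fin D.card → Form := fun i => (D.equivFin.symm i).1.1 with hL
  set V : Fin U.card → Form := fun i => (U.equivFin.symm i).1.1 with hV
  set N : ℕ := ∑ i, sz (L i) + ∑ j, sz (V j) with hN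
  -- a list of fresh atoms
  set b : ℕ := av.sup id + 1 with hb
  set l : List ℕ := (List.range (N + 1)).map (fun i => b + i) with hl
  have hfresh : ∀ c ∈ l, c ∉ av := by
    intro c hc hcav
    rw [hl, List.mem_map] at hc
    obtain ⟨i, _, rfl⟩ := hc
    have : id (b + i) ≤ av.sup id := Finset.le_sup hcav
    simp only [id] at this
    omega
  have hnodup : l.Nodup := by
    rw [hl]
    exact List.nodup_range.map fun i j hij => by simpa using hij
  have hlen : l.length = N + 1 := by simp [hl]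
  have hval : Valid (Form.mk D.card U.card L V l) := by
    rw [valid_mk]
    refine ⟨fun i => (D.equivFin.symm i).1.2, fun j => (U.equivFin.symm j).1.2, fun i j => ?_,
      hnodup, ?_⟩
    · have h1 := h _ (D.equivFin.symm i).2 _ (U.equivFin.symm j).2
      exact ⟨h1.le, fun h2 => h1.ne (Subtype.ext h2)⟩
    · rw [hlen, ← hN]; omega
  refine ⟨⟨_, hval⟩, ?_, ?_⟩
  · intro c hc
    rcases mem_supp_mk.1 hc with h1 | ⟨i, h1⟩ | ⟨j, h1⟩
    · exact Or.inr (Or.inr (hfresh c h1))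
    · exact Or.inl ⟨_, (D.equivFin.symm i).2, h1⟩
    · exact Or.inr (Or.inl ⟨_, (U.equivFin.symm j).2, h1⟩)
  · intro y hy
    have hnot : ¬ (Form.supp (Form.mk D.card U.card L V l) ⊆ Form.supp y.1) := by
      intro hsub
      have h1 : b + 0 ∈ l := by
        rw [hl, List.mem_map]
        exact ⟨0, by simp, rfl⟩
      exact hfresh _ h1 (hy (hsub (mem_supp_mk.2 (Or.inl h1))))
    constructor
    · constructor
      · rintro ⟨z, hz1, hz2⟩
        rcases mem_dn_mk.1 hz2 with rfl | ⟨i, hi⟩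
        · exact absurd (supp_up hz1) hnot
        · exact ⟨_, (D.equivFin.symm i).2, ⟨z, hz1, hi⟩⟩
      · rintro ⟨d, hd, ⟨z, hz1, hz2⟩⟩
        refine ⟨z, hz1, mem_dn_mk.2 (Or.inr ⟨D.equivFin ⟨d, hd⟩, ?_⟩)⟩
        simpa [hL] using hz2
    · constructor
      · rintro ⟨z, hz1, hz2⟩
        rcases mem_up_mk.1 hz1 with rfl | ⟨i, hi⟩
        · exact absurd (supp_dn hz2) hnot
        · exact ⟨_, (U.equivFin.symm i).2, ⟨z, hi, hz2⟩⟩
      · rintro ⟨d, hd, ⟨z, hz1, hz2⟩⟩
        refine ⟨z, mem_up_mk.2 (Or.inr ⟨U.equivFin ⟨d, hd⟩, ?_⟩), hz2⟩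
        simpa [hV] using hz1

end M

end Pool.Agent.RPoset
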