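import Mathlib
import Pool.Agent.RPoset.Model
import Pool.Agent.RPoset.Basic

set_option autoImplicit false

/-!
# Conditions
-/

namespace Pool.Agent.RPoset

/-- `R` is free from `X` over `B`. -/
def FreeFrom {Ω : Type} [PartialOrder Ω] (R B X : Set Ω) : Prop :=
  ∀ r ∈ R, ∀ x ∈ X, (r ≤ x → ∃ b ∈ B, r ≤ b ∧ b ≤ x) ∧ (x ≤ r → ∃ b ∈ B, x ≤ b ∧ b ≤ r)

/-- The points of `M` with atoms in `S`. -/
def cl (S : Finset ℕ) : Set M := {x | M.supp x ⊆ S}

lemma mem_cl {S : Finset ℕ} {x : M} : x ∈ cl S ↔ M.supp x ⊆ S := Iff.rfl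

lemma cl_finite (S : Finset ℕ) : (cl S).Finite := M.finite_supp S

lemma cl_mono {S T : Finset ℕ} (h : S ⊆ T) : cl S ⊆ cl T := fun _ hx => subset_trans hx h

/-- Conditions: finite approximations of isomorphisms `M → Ω`. -/
structure Cond (Ω : Type) [PartialOrder Ω] where
  /-- the finite set of atoms -/
  S : Finset ℕ
  /-- the map; only its values on `cl S` matter -/
  e : M → Ω
  emb : ∀ x ∈ cl S, ∀ y ∈ cl S, e x ≤ e y ↔ x ≤ y

namespace Cond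

variable {Ω : Type} [PartialOrder Ω]

/-- The range of a condition. -/
def R (q : Cond Ω) : Set Ω := q.e '' cl q.S

lemma R_finite (q : Cond Ω) : q.R.Finite := (cl_finite q.S).image q.e

/-- Extension of conditions. -/
def Ext (q q' : Cond Ω) : Prop := q.S ⊆ q'.S ∧ ∀ x ∈ cl q.S, q'.e x = q.e x

lemma Ext.refl (q : Cond Ω) : q.Ext q := ⟨subset_rfl, fun _ _ => rfl⟩

lemma Ext.trans {q q' q'' : Cond Ω} (h : q.Ext q') (h' : q'.Ext q'') : q.Ext q'' :=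
  ⟨h.1.trans h'.1, fun x hx => by rw [h'.2 x (cl_mono h.1 hx), h.2 x hx]⟩

lemma Ext.R_subset {q q' : Cond Ω} (h : q.Ext q') : q.R ⊆ q'.R := by
  rintro _ ⟨x, hx, rfl⟩
  exact ⟨x, cl_mono h.1 hx, h.2 x hx⟩

lemma inj (q : Cond Ω) {x y : M} (hx : x ∈ cl q.S) (hy : y ∈ cl q.S) (h : q.e x = q.e y) :
    x = y :=
  le_antisymm ((q.emb x hx y hy).1 h.le) ((q.emb y hy x hx).1 h.ge)

end Cond

section CondExt

variable {Ω : Type} [PartialOrder Ω]

/-- The basic extension lemma for conditions. -/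
theorem cond_ext (hΩ : IsGen Ω) (q : Cond Ω) (S' : Finset ℕ) (hS : q.S ⊆ S') (W : Set M)
    (hW : W ⊆ cl S') (hW' : cl q.S ⊆ W) (eW : M → Ω)
    (hemb : ∀ x ∈ W, ∀ y ∈ W, eW x ≤ eW y ↔ x ≤ y) (hag : ∀ x ∈ cl q.S, eW x = q.e x)
    (X : Set Ω) (hX : X.Finite) :
    ∃ q' : Cond Ω, q.Ext q' ∧ q'.S = S' ∧ (∀ x ∈ W, q'.e x = eW x) ∧
      ∀ x ∈ cl S', ∀ y ∈ X, (q'.e x ≤ y → ∃ w ∈ W, x ≤ w ∧ eW w ≤ y) ∧
        (y ≤ q'.e x → ∃ w ∈ W, y ≤ eW w ∧ w ≤ x) := by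
  classical
  have : Finite (cl S') := cl_finite S'
  have hWf : W.Finite := (cl_finite S').subset hW
  obtain ⟨e', h1, h2, h3⟩ := hΩ.free_ext (X ∪ eW '' W) (hX.union (hWf.image eW)) (cl S')
    {n | n.1 ∈ W} (fun n => eW n.1) (fun a ha b hb => hemb a.1 ha b.1 hb)
    (fun a ha => Or.inr ⟨a.1, ha, rfl⟩)
  let e'' : M → Ω := fun x => if h : x ∈ cl S' then e' ⟨x, h⟩ else q.e x
  have he : ∀ (x : M) (h : x ∈ cl S'), e'' x = e' ⟨x, h⟩ := fun x h => dif_pos h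
  refine ⟨⟨S', e'', ?_⟩, ⟨hS, ?_⟩, rfl, ?_, ?_⟩
  · intro x hx y hy
    rw [he x hx, he y hy, h2]
    exact Iff.rfl
  · intro x hx
    show e'' x = q.e x
    rw [he x (cl_mono hS hx), h1 _ (hW' hx), hag x hx]
  · intro x hx
    show e'' x = eW x
    rw [he x (hW hx), h1 _ hx]
  · intro x hx y hy
    show (e'' x ≤ y → _) ∧ (y ≤ e'' x → _)
    rw [he x hx]
    have h4 := h3 ⟨x, hx⟩ y (Or.inl hy)
    constructor
    · intro h5
      obtain ⟨b, hb, h6, h7⟩ := h4.1 h5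
      exact ⟨b.1, hb, h6, h7⟩
    · intro h5
      obtain ⟨b, hb, h6, h7⟩ := h4.2 h5
      exact ⟨b.1, hb, h6, h7⟩

/-- Adding atoms to a condition. -/
theorem cond_add_atoms (hΩ : IsGen Ω) (q : Cond Ω) (C : Finset ℕ) (X : Set Ω) (hX : X.Finite) :
    ∃ q' : Cond Ω, q.Ext q' ∧ C ⊆ q'.S ∧ FreeFrom q'.R q.R X := by
  obtain ⟨q', h1, h2, -, h4⟩ := cond_ext hΩ q (q.S ∪ C) Finset.subset_union_left (cl q.S)
    (cl_mono Finset.subset_union_left) subset_rfl q.e q.emb (fun _ _ => rfl) X hX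
  refine ⟨q', h1, by rw [h2]; exact Finset.subset_union_right, ?_⟩
  rintro _ ⟨x, hx, rfl⟩ y hy
  rw [h2] at hx
  have h5 := h4 x hx y hy
  constructor
  · intro h6
    obtain ⟨w, hw, h7, h8⟩ := h5.1 h6
    refine ⟨q.e w, ⟨w, hw, rfl⟩, ?_, h8⟩
    rw [← h1.2 w hw]
    exact (q'.emb x (h2 ▸ hx) w (cl_mono h1.1 hw)).2 h7
  · intro h6
    obtain ⟨w, hw, h7, h8⟩ := h5.2 h6
    refine ⟨q.e w, ⟨w, hw, rfl⟩, h7, ?_⟩
    rw [← h1.2 w hw]
    exact (q'.emb w (cl_mono h1.1 hw) x (h2 ▸ hx)).2 h8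

/-- Adding a point to the range of a condition. -/
theorem cond_add_point (hΩ : IsGen Ω) (q : Cond Ω) (p : Ω) (X : Set Ω) (hX : X.Finite) :
    ∃ q' : Cond Ω, q.Ext q' ∧ p ∈ q'.R ∧ FreeFrom q'.R (q.R ∪ {p}) X := by
  classical
  by_cases hp : p ∈ q.R
  · refine ⟨q, Cond.Ext.refl q, hp, ?_⟩
    intro r hr x _
    exact ⟨fun h => ⟨r, Or.inl hr, le_rfl, h⟩, fun h => ⟨r, Or.inl hr, h, le_rfl⟩⟩
  set D : Finset M := (cl_finite q.S).toFinset.filter (fun x => q.e x ≤ p) with hD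
  set U : Finset M := (cl_finite q.S).toFinset.filter (fun x => p ≤ q.e x) with hU
  have hmD : ∀ x, x ∈ D ↔ x ∈ cl q.S ∧ q.e x ≤ p := by
    intro x; rw [hD, Finset.mem_filter, Set.Finite.mem_toFinset]
  have hmU : ∀ x, x ∈ U ↔ x ∈ cl q.S ∧ p ≤ q.e x := by
    intro x; rw [hU, Finset.mem_filter, Set.Finite.mem_toFinset]
  have hDU : ∀ d ∈ D, ∀ u ∈ U, d < u := by
    intro d hd u hu
    obtain ⟨h1, h2⟩ := (hmD d).1 hd
    obtain ⟨h3, h4⟩ := (hmU u).1 hu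
    refine lt_of_le_of_ne ((q.emb d h1 u h3).1 (h2.trans h4)) ?_
    rintro rfl
    exact hp ⟨d, h1, _root_.le_antisymm h2 h4⟩
  obtain ⟨m, hm1, hm2⟩ := M.exists_node D U hDU q.S
  have hmnot : m ∉ cl q.S := by
    intro hmS
    obtain ⟨h1, h2⟩ := hm2 m hmS
    obtain ⟨d, hd, h3⟩ := h1.1 le_rfl
    obtain ⟨u, hu, h4⟩ := h2.1 le_rfl
    exact absurd (h4.trans h3) (not_le_of_gt (hDU d hd u hu))
  set eW : M → Ω := fun x => if x = m then p else q.e x with heW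
  have heWm : eW m = p := by simp [heW]
  have heWx : ∀ x ∈ cl q.S, eW x = q.e x := by
    intro x hx
    have : x ≠ m := fun h => hmnot (h ▸ hx)
    simp [heW, this]
  have hxm : ∀ x ∈ cl q.S, (q.e x ≤ p ↔ x ≤ m) := by
    intro x hx
    rw [(hm2 x hx).1]
    constructor
    · intro h; exact ⟨x, (hmD x).2 ⟨hx, h⟩, le_rfl⟩
    · rintro ⟨d, hd, h⟩
      obtain ⟨h1, h2⟩ := (hmD d).1 hd
      exact ((q.emb x hx d h1).2 h).trans h2
  have hmx : ∀ x ∈ cl q.S, (p ≤ q.e x ↔ m ≤ x) := by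
    intro x hx
    rw [(hm2 x hx).2]
    constructor
    · intro h; exact ⟨x, (hmU x).2 ⟨hx, h⟩, le_rfl⟩
    · rintro ⟨d, hd, h⟩
      obtain ⟨h1, h2⟩ := (hmU d).1 hd
      exact h2.trans ((q.emb d h1 x hx).2 h)
  obtain ⟨q', h1, h2, h3, h4⟩ := cond_ext hΩ q (q.S ∪ M.supp m) Finset.subset_union_left
    (cl q.S ∪ {m}) (by
      rintro x (hx | hx)
      · exact cl_mono Finset.subset_union_left hx
      · rw [Set.mem_singleton_iff] at hx
        subst hx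
        exact mem_cl.2 Finset.subset_union_right) Set.subset_union_left eW (by
      rintro x (hx | hx) y (hy | hy)
      · rw [heWx x hx, heWx y hy]; exact q.emb x hx y hy
      · rw [Set.mem_singleton_iff] at hy
        subst hy
        rw [heWx x hx, heWm]; exact hxm x hx
      · rw [Set.mem_singleton_iff] at hx
        subst hx
        rw [heWx y hy, heWm]; exact hmx y hy
      · rw [Set.mem_singleton_iff] at hx hy
        subst hx
        subst hy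
        simp) heWx X hX
  have hmS' : m ∈ cl q'.S := by rw [h2]; exact mem_cl.2 Finset.subset_union_right
  have hem : q'.e m = p := by rw [h3 m (Or.inr rfl), heWm]
  refine ⟨q', h1, ⟨m, hmS', hem⟩, ?_⟩
  rintro _ ⟨x, hx, rfl⟩ y hy
  have hWq : ∀ w ∈ cl q.S ∪ {m}, w ∈ cl q'.S ∧ q'.e w = eW w ∧ eW w ∈ q.R ∪ {p} := by
    rintro w (hw | hw)
    · exact ⟨cl_mono h1.1 hw, h3 w (Or.inl hw), Or.inl ⟨w, hw, (heWx w hw).symm⟩⟩
    · rw [Set.mem_singleton_iff] at hw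
      subst hw
      exact ⟨hmS', h3 w (Or.inr rfl), Or.inr heWm⟩
  have h5 := h4 x (h2 ▸ hx) y hy
  constructor
  · intro h6
    obtain ⟨w, hw, h7, h8⟩ := h5.1 h6
    obtain ⟨h9, h10, h11⟩ := hWq w hw
    refine ⟨eW w, h11, ?_, h8⟩
    rw [← h10]
    exact (q'.emb x hx w h9).2 h7
  · intro h6
    obtain ⟨w, hw, h7, h8⟩ := h5.2 h6
    obtain ⟨h9, h10, h11⟩ := hWq w hw
    refine ⟨eW w, h11, h7, ?_⟩
    rw [← h10]
    exact (q'.emb w h9 x hx).2 h8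

/-- Adding finitely many points and atoms. -/
theorem cond_pre (hΩ : IsGen Ω) (q : Cond Ω) (Y : Set Ω) (hY : Y.Finite) (C : Finset ℕ)
    (X : Set Ω) (hX : X.Finite) :
    ∃ q' : Cond Ω, q.Ext q' ∧ C ⊆ q'.S ∧ Y ⊆ q'.R ∧ FreeFrom q'.R (q.R ∪ Y) X := by
  have key : ∀ Z : Set Ω, Z.Finite → ∃ q' : Cond Ω, q.Ext q' ∧ Z ⊆ q'.R ∧
      FreeFrom q'.R (q.R ∪ Z) X := by
    intro Z hZ
    induction Z, hZ using Set.Finite.induction_on with
    | empty =>
      refine ⟨q, Cond.Ext.refl q, Set.empty_subset _, ?_⟩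
      intro r hr x _
      exact ⟨fun h => ⟨r, Or.inl hr, le_rfl, h⟩, fun h => ⟨r, Or.inl hr, h, le_rfl⟩⟩
    | @insert a Z _ _ ih =>
      obtain ⟨q1, h1, h2, h3⟩ := ih
      obtain ⟨q2, h4, h5, h6⟩ := cond_add_point hΩ q1 a X hX
      refine ⟨q2, h1.trans h4, ?_, ?_⟩
      · intro z hz
        rcases hz with rfl | hz
        · exact h5
        · exact h4.R_subset (h2 hz)
      · intro r hr x hx
        constructor
        · intro h7
          obtain ⟨b, hb, h8, h9⟩ := (h6 r hr x hx).1 h7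
          rcases hb with hb | hb
          · obtain ⟨c, hc, h10, h11⟩ := (h3 b hb x hx).1 h9
            refine ⟨c, ?_, h8.trans h10, h11⟩
            rcases hc with hc | hc
            · exact Or.inl hc
            · exact Or.inr (Or.inr hc)
          · exact ⟨b, Or.inr (Or.inl hb), h8, h9⟩
        · intro h7
          obtain ⟨b, hb, h8, h9⟩ := (h6 r hr x hx).2 h7
          rcases hb with hb | hb
          · obtain ⟨c, hc, h10, h11⟩ := (h3 b hb x hx).2 h8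
            refine ⟨c, ?_, h10, h11.trans h9⟩
            rcases hc with hc | hc
            · exact Or.inl hc
            · exact Or.inr (Or.inr hc)
          · exact ⟨b, Or.inr (Or.inl hb), h8, h9⟩
  obtain ⟨q1, h1, h2, h3⟩ := key Y hY
  obtain ⟨q2, h4, h5, h6⟩ := cond_add_atoms hΩ q1 C X hX
  refine ⟨q2, h1.trans h4, h5, h2.trans h4.R_subset, ?_⟩
  intro r hr x hx
  constructor
  · intro h7
    obtain ⟨b, hb, h8, h9⟩ := (h6 r hr x hx).1 h7
    obtain ⟨c, hc, h10, h11⟩ := (h3 b hb x hx).1 h9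
    exact ⟨c, hc, h8.trans h10, h11⟩
  · intro h7
    obtain ⟨b, hb, h8, h9⟩ := (h6 r hr x hx).2 h7
    obtain ⟨c, hc, h10, h11⟩ := (h3 b hb x hx).2 h8
    exact ⟨c, hc, h10, h11.trans h9⟩

end CondExt

end Pool.Agent.RPoset
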