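import Mathlib
import Pool.Agent.RPoset.Basic

set_option autoImplicit false

/-!
# An open subgroup which is transitive on the points is everything
-/

namespace Pool.Agent.RPoset

variable {Ω : Type} [PartialOrder Ω]

/-- Moving a point freely over a finite set. -/
theorem IsGen.exists_free_aut (hΩ : IsGen Ω) (D : Set Ω) (hD : D.Finite) (f : Ω) (X : Set Ω)
    (hX : X.Finite) : ∃ k : Ω ≃o Ω, (∀ d ∈ D, k d = d) ∧
      ∀ x ∈ X, (k f ≤ x → ∃ b ∈ D, f ≤ b ∧ b ≤ x) ∧ (x ≤ k f → ∃ b ∈ D, x ≤ b ∧ b ≤ f) := by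
  have hfin : Finite (insert f D : Set Ω) := hD.insert f
  obtain ⟨e', h1, h2, h3⟩ := hΩ.free_ext (X ∪ D) (hX.union hD) (insert f D : Set Ω)
    {n | n.1 ∈ D} (fun n => n.1) (fun a _ b _ => Iff.rfl) (fun a ha => Or.inr ha)
  obtain ⟨k, hk⟩ := hΩ.exists_aut (ι := (insert f D : Set Ω)) Set.univ Set.finite_univ
    (fun n => n.1) e' (fun a _ b _ => (h2 a b).symm)
  have hkf : k f = e' ⟨f, Set.mem_insert f D⟩ := hk ⟨f, Set.mem_insert f D⟩ trivial
  refine ⟨k, ?_, ?_⟩
  · intro d hd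
    have h4 := hk ⟨d, Set.mem_insert_of_mem f hd⟩ trivial
    rw [h1 ⟨d, Set.mem_insert_of_mem f hd⟩ hd] at h4
    exact h4
  · intro x hx
    rw [hkf]
    obtain ⟨h5, h6⟩ := h3 ⟨f, Set.mem_insert f D⟩ x (Or.inl hx)
    constructor
    · intro h7
      obtain ⟨b, hb, h8, h9⟩ := h5 h7
      exact ⟨b.1, hb, h8, h9⟩
    · intro h7
      obtain ⟨b, hb, h8, h9⟩ := h6 h7
      exact ⟨b.1, hb, h8, h9⟩

/-- Incomparable realisations of the type of `f` over `D`. -/
theorem IsGen.exists_incomp (hΩ : IsGen Ω) (D : Set Ω) (hD : D.Finite) (f : Ω) (hf : f ∉ D)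
    (y : Ω) : ∃ k : Ω ≃o Ω, (∀ d ∈ D, k d = d) ∧
      ∀ x : Ω, (x = f ∨ x = y) → (∃ g : Ω ≃o Ω, (∀ d ∈ D, g d = d) ∧ g f = x) →
        ¬ k f ≤ x ∧ ¬ x ≤ k f := by
  obtain ⟨k, h1, h2⟩ := hΩ.exists_free_aut D hD f {f, y} (Set.toFinite _)
  refine ⟨k, h1, ?_⟩
  rintro x hx ⟨g, hg1, rfl⟩
  have hx' : g f ∈ ({f, y} : Set Ω) := by
    rcases hx with hx | hx
    · left; exact hx
    · right; exact hx
  obtain ⟨h3, h4⟩ := h2 _ hx'
  constructor
  · intro h5
    obtain ⟨b, hb, h6, h7⟩ := h3 h5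
    rw [← hg1 b hb, g.le_iff_le] at h7
    exact hf (le_antisymm h6 h7 ▸ hb)
  · intro h5
    obtain ⟨b, hb, h6, h7⟩ := h4 h5
    rw [← hg1 b hb, g.le_iff_le] at h6
    exact hf (le_antisymm h6 h7 ▸ hb)

/-- Points outside a finite set. -/
theorem IsGen.exists_notMem (hΩ : IsGen Ω) (F : Finset Ω) : ∃ x : Ω, x ∉ F := by
  obtain ⟨j⟩ := hΩ.univ (Fin (F.card + 1))
  by_contra hcon
  push Not at hcon
  have h1 : (Finset.univ : Finset (Fin (F.card + 1))).card ≤ F.card :=
    Finset.card_le_card_of_injOn j (fun i _ => hcon _) j.injective.injOn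
  rw [Finset.card_univ, Fintype.card_fin] at h1
  omega

/-- One step: remove a point from the base of an open subgroup. -/
theorem IsGen.stab_step (hΩ : IsGen Ω) (H : Subgroup (Ω ≃o Ω))
    (htr : ∀ x y : Ω, ∃ h ∈ H, h x = y) (D : Set Ω) (hD : D.Finite) (f : Ω) (hf : f ∉ D)
    (hF : ∀ g : Ω ≃o Ω, (∀ x ∈ D, g x = x) → g f = f → g ∈ H) :
    ∀ g : Ω ≃o Ω, (∀ x ∈ D, g x = x) → g ∈ H := by
  classical
  -- a conjugate base avoiding `f`
  obtain ⟨x, hx⟩ := hΩ.exists_notMem (insert f hD.toFinset)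
  obtain ⟨h, hh, hhx⟩ := htr x f
  have hfD : ∀ d ∈ insert f D, h d ≠ f := by
    intro d hd hdf
    rw [← hhx] at hdf
    have := h.injective hdf
    subst this
    apply hx
    rcases hd with hd | hd
    · rw [hd]; exact Finset.mem_insert_self _ _
    · exact Finset.mem_insert_of_mem (by simpa using hd)
  set E : Set Ω := D ∪ h '' (insert f D) with hE
  have hEf : E.Finite := hD.union ((hD.insert f).image h)
  have hfE : f ∉ E := by
    rintro (h1 | ⟨d, hd, hdf⟩)
    · exact hf h1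
    · exact hfD d hd hdf
  have hEH : ∀ g : Ω ≃o Ω, (∀ x ∈ E, g x = x) → g ∈ H := by
    intro g hg
    have h1 : h⁻¹ * g * h ∈ H := by
      have h2 : ∀ d ∈ insert f D, (h⁻¹ * g * h) d = d := by
        intro d hd
        have h3 : g (h d) = h d := hg _ (Or.inr ⟨d, hd, rfl⟩)
        show h⁻¹ (g (h d)) = d
        rw [h3]
        exact h.symm_apply_apply d
      exact hF _ (fun d hd => h2 d (Or.inr hd)) (h2 f (Or.inl rfl))
    have h2 : g = h * (h⁻¹ * g * h) * h⁻¹ := by group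
    rw [h2]
    exact H.mul_mem (H.mul_mem hh h1) (H.inv_mem hh)
  -- an element of `H` fixing `D` and moving `f` to an incomparable point
  obtain ⟨k, hk1, hk2⟩ := hΩ.exists_incomp E hEf f hfE f
  have hkH : k ∈ H := hEH k hk1
  obtain ⟨hkf1, hkf2⟩ := hk2 f (Or.inl rfl) ⟨1, fun _ _ => rfl, rfl⟩
  -- all incomparable realisations are reached
  have key : ∀ g : Ω ≃o Ω, (∀ x ∈ D, g x = x) → ¬ g f ≤ f → ¬ f ≤ g f →
      ∃ h ∈ H, (∀ x ∈ D, h x = x) ∧ h f = g f := by
    intro g hg hgf1 hgf2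
    have hkD : ∀ x ∈ D, k x = x := fun x hx => hk1 x (Or.inl hx)
    obtain ⟨u, hu⟩ := hΩ.exists_aut (ι := Option (Option D)) Set.univ
      (by
        have : Finite D := hD
        exact Set.finite_univ)
      (fun o => match o with
        | none => f
        | some none => k f
        | some (some d) => d.1)
      (fun o => match o with
        | none => f
        | some none => g f
        | some (some d) => d.1) (by
        rintro (_ | _ | ⟨a, ha⟩) _ (_ | _ | ⟨b, hb⟩) _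
        · simp
        · simp [hkf2, hgf2]
        · simp
        · simp [hkf1, hgf1]
        · simp
        · show k f ≤ b ↔ g f ≤ b
          rw [← hkD b hb, k.le_iff_le, hkD b hb]
          conv_rhs => rw [← hg b hb, g.le_iff_le]
        · simp
        · show a ≤ k f ↔ a ≤ g f
          rw [← hkD a ha, k.le_iff_le, hkD a ha]
          conv_rhs => rw [← hg a ha, g.le_iff_le]
        · simp)
    have hu1 : u f = f := hu none trivial
    have hu2 : u (k f) = g f := hu (some none) trivial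
    have hu3 : ∀ d ∈ D, u d = d := fun d hd => hu (some (some ⟨d, hd⟩)) trivial
    refine ⟨u * k, H.mul_mem (hF u hu3 hu1) hkH, ?_, hu2⟩
    intro x hx
    show u (k x) = x
    rw [hkD x hx, hu3 x hx]
  intro g hg
  obtain ⟨k', hk'1, hk'2⟩ := hΩ.exists_incomp D hD f hf (g f)
  obtain ⟨h1, h2⟩ := hk'2 f (Or.inl rfl) ⟨1, fun _ _ => rfl, rfl⟩
  obtain ⟨h3, h4⟩ := hk'2 (g f) (Or.inr rfl) ⟨g, hg, rfl⟩
  obtain ⟨a, haH, haD, haf⟩ := key k' hk'1 h1 h2
  -- move back by `a`
  have hainv : ∀ x ∈ D, a⁻¹ x = x := by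
    intro x hx
    have : a⁻¹ (a x) = x := a.symm_apply_apply x
    rwa [haD x hx] at this
  obtain ⟨b, hbH, hbD, hbf⟩ := key (a⁻¹ * g) (by
      intro x hx
      show a⁻¹ (g x) = x
      rw [hg x hx, hainv x hx]) (by
      intro h5
      apply h4
      have h6 : a (a⁻¹ (g f)) ≤ a f := a.le_iff_le.2 h5
      have h7 : a (a⁻¹ (g f)) = g f := a.apply_symm_apply _
      rwa [h7, haf] at h6) (by
      intro h5
      apply h3
      have h6 : a f ≤ a (a⁻¹ (g f)) := a.le_iff_le.2 h5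
      have h7 : a (a⁻¹ (g f)) = g f := a.apply_symm_apply _
      rwa [h7, haf] at h6)
  have h5 : b⁻¹ * (a⁻¹ * g) ∈ H := by
    apply hF
    · intro x hx
      show b⁻¹ (a⁻¹ (g x)) = x
      rw [hg x hx, hainv x hx]
      have : b⁻¹ (b x) = x := b.symm_apply_apply x
      rwa [hbD x hx] at this
    · show b⁻¹ (a⁻¹ (g f)) = f
      have h6 : b f = a⁻¹ (g f) := hbf
      rw [← h6]
      exact b.symm_apply_apply f
  have h6 : g = a * (b * (b⁻¹ * (a⁻¹ * g))) := by group
  rw [h6]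
  exact H.mul_mem haH (H.mul_mem hbH h5)

/-- An open subgroup of the automorphism group of the universal homogeneous poset which is
transitive on the points is the whole group. -/
theorem stab_top {Ω : Type} [PartialOrder Ω]
    (huniv : ∀ (α : Type) [Finite α] [PartialOrder α], Nonempty (α ↪o Ω))
    (hom : ∀ (A B : Set Ω), A.Finite → ∀ f : A ≃o B, ∃ g : Ω ≃o Ω, ∀ a : A, g a.1 = (f a).1)
    (H : Subgroup (Ω ≃o Ω)) (htr : ∀ x y : Ω, ∃ h ∈ H, h x = y) (F : Finset Ω)
    (hF : ∀ g : Ω ≃o Ω, (∀ x ∈ F, g x = x) → g ∈ H) : H = ⊤ := by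
  classical
  have hΩ : IsGen Ω := ⟨huniv, hom⟩
  induction F using Finset.induction_on with
  | empty =>
    rw [eq_top_iff]
    intro g _
    exact hF g (by simp)
  | insert f D hfD ih =>
    apply ih
    have h1 := hΩ.stab_step H htr (↑D) D.finite_toSet f (by simpa using hfD) (by
      intro g hg hgf
      apply hF
      intro x hx
      rcases Finset.mem_insert.1 hx with rfl | hx
      · exact hgf
      · exact hg x (by simpa using hx))
    intro g hg
    exact h1 g (fun x hx => hg x (by simpa using hx))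

end Pool.Agent.RPoset
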